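import Pool.Agent.Helper95.Lin3.Rel

/-!
# Layered grid graph reachability reduces to a grammar with three recursive rules
-/

namespace Pool.Agent.Helper95.Lin3

open Classical Pool.Agent.Helper38.LinL Pool.Agent.Helper38.LinTwo

set_option linter.unusedSimpArgs false
set_option linter.unusedVariables false
set_option linter.unusedSectionVars false

section blocks

theorem flatMap_range {β : Type} {l : ℕ} (hl : 0 < l) (d : β) (f : ℕ → List β)
    (hf : ∀ i, (f i).length = l) (n : ℕ) :
    (List.range n).flatMap f =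
      (List.range (n * l)).map fun m => (f (m / l)).getD (m % l) d := by
  induction n with
  | zero => simp
  | succ n ih =>
    rw [List.range_succ, List.flatMap_append, ih, Nat.succ_mul, List.range_add, List.map_append]
    congr 1
    rw [List.flatMap_singleton, List.map_map]
    refine List.ext_getElem ?_ ?_
    · simp [hf]
    · intro i h1 h2
      have hi : i < l := by simpa [hf] using h1
      have e1 : (n * l + i) / l = n := by
        rw [add_comm, Nat.add_mul_div_right _ _ hl, Nat.div_eq_of_lt hi, zero_add]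
      have e2 : (n * l + i) % l = i := by
        rw [add_comm, Nat.add_mul_mod_self_right, Nat.mod_eq_of_lt hi]
      simp only [List.getElem_map, List.getElem_range, Function.comp, e1, e2]
      rw [List.getD_eq_getElem _ _ h1]

end blocks

section word

variable {K D Y : ℕ} {Z : ℕ → Prop}

/-- The left part. -/
def lf (K D : ℕ) : List Let :=
  (List.range (K * D)).map fun m => if m % D = 0 then Let.b else Let.a

/-- The right part. -/
noncomputable def rt (Y : ℕ) (Z : ℕ → Prop) : List Let :=
  (List.range Y).map fun m => if Z (Y - 1 - m) then Let.zero else Let.one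

theorem hw_eq : hw K D Y Z = lf K D ++ Let.c :: rt Y Z := by
  unfold hw lf rt
  rw [List.range_add, List.map_append, List.range_succ, List.map_append, List.map_map,
    List.append_assoc]
  congr 1
  · refine List.map_congr_left fun m hm => ?_
    rw [List.mem_range] at hm
    rw [if_pos hm]
  · rw [List.map_singleton, if_neg (lt_irrefl _), if_pos rfl, List.singleton_append]
    congr 1
    refine List.map_congr_left fun m hm => ?_
    rw [List.mem_range] at hm
    simp only [Function.comp]
    rw [if_neg (by omega), if_neg (by omega),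
      show K * D + Y - (K * D + 1 + m) = Y - 1 - m by omega]

/-- The word of the reduction. -/
noncomputable def hw3 (K D Y : ℕ) (Z : ℕ → Prop) : List Let3 :=
  (List.range (K * D * 18 + 1 + Y * 24)).map fun m =>
    if m < K * D * 18 then (if m / 18 % D = 0 then wB else wA).getD (m % 18) Let3.c
    else if m = K * D * 18 then Let3.c
    else (if Z (Y - 1 - (m - (K * D * 18 + 1)) / 24) then wO.reverse else wI.reverse).getD
      ((m - (K * D * 18 + 1)) % 24) Let3.c

theorem hw3_length : (hw3 K D Y Z).length = K * D * 18 + 1 + Y * 24 := by simp [hw3]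

theorem hw3_eq : hw3 K D Y Z = (lf K D).flatMap cl ++
    Let3.c :: (rt Y Z).flatMap fun l => (cr l).reverse := by
  unfold hw3 lf rt
  rw [List.flatMap_map, List.flatMap_map,
    flatMap_range (l := 18) (by omega) Let3.c _ (fun i => by split_ifs <;> rfl),
    flatMap_range (l := 24) (by omega) Let3.c _ (fun i => by split_ifs <;> rfl)]
  rw [List.range_add, List.map_append, List.range_succ, List.map_append, List.map_map,
    List.append_assoc]
  congr 1
  · refine List.map_congr_left fun m hm => ?_
    rw [List.mem_range] at hm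
    rw [if_pos hm]
    congr 1
    split_ifs <;> rfl
  · rw [List.map_singleton, if_neg (lt_irrefl _), if_pos rfl, List.singleton_append]
    congr 1
    refine List.map_congr_left fun m hm => ?_
    rw [List.mem_range] at hm
    simp only [Function.comp]
    rw [if_neg (by omega), if_neg (by omega),
      show K * D * 18 + 1 + m - (K * D * 18 + 1) = m by omega]
    congr 1
    split_ifs <;> rfl

theorem lf_mem {l : Let} (h : l ∈ lf K D) : l = Let.a ∨ l = Let.b := by
  unfold lf at h
  rw [List.mem_map] at h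
  obtain ⟨m, _, rfl⟩ := h
  split_ifs
  · exact Or.inr rfl
  · exact Or.inl rfl

theorem rt_mem {l : Let} (h : l ∈ rt Y Z) : l = Let.zero ∨ l = Let.one := by
  unfold rt at h
  rw [List.mem_map] at h
  obtain ⟨m, _, rfl⟩ := h
  split_ifs
  · exact Or.inl rfl
  · exact Or.inr rfl

theorem Rd4.not_mem {x y : List Let} (h : Rd4 x y) : Let.c ∉ x := by
  induction h with
  | nil => simp
  | a0 _ ih => simp [ih]
  | a1 _ ih => simp [ih]
  | b0 _ ih => simp [ih]
  | b00 _ ih => simp [ih]

theorem Rd.not_mem {x y : List Let3} (h : Rd x y) : Let3.c ∉ x := by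
  induction h with
  | nil => simp
  | a1 _ ih => simp [ih]
  | b1 _ ih => simp [ih]
  | a2 _ ih => simp [ih]

theorem mem_lang4' {X Y : List Let} (hX : Let.c ∉ X) (hY : Let.c ∉ Y) :
    X ++ Let.c :: Y ∈ G4.language ↔ Rd4 X Y.reverse := by
  rw [mem_lang4]
  constructor
  · rintro ⟨x, y, h, e⟩
    rw [List.append_assoc, List.singleton_append, List.append_cons_inj_of_notMem hX hY] at e
    obtain ⟨rfl, _, rfl⟩ := e
    rwa [List.reverse_reverse]
  · intro h
    exact ⟨X, Y.reverse, h, by simp⟩

theorem mem_lang3' {X Y : List Let3} (hX : Let3.c ∉ X) (hY : Let3.c ∉ Y) :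
    X ++ Let3.c :: Y ∈ G3.language ↔ Rd X Y.reverse := by
  rw [mem_lang3]
  constructor
  · rintro ⟨x, y, h, e⟩
    rw [List.append_assoc, List.singleton_append, List.append_cons_inj_of_notMem hX hY] at e
    obtain ⟨rfl, _, rfl⟩ := e
    rwa [List.reverse_reverse]
  · intro h
    exact ⟨X, Y.reverse, h, by simp⟩

theorem cl_not_mem (l : Let) : Let3.c ∉ cl l := by
  cases l <;> decide

theorem cr_not_mem (l : Let) : Let3.c ∉ cr l := by
  cases l <;> decide

theorem hw3_mem : hw3 K D Y Z ∈ G3.language ↔ hw K D Y Z ∈ G4.language := by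
  have h1 : Let.c ∉ lf K D := fun h => by
    rcases lf_mem h with h | h <;> cases h
  have h2 : Let.c ∉ rt Y Z := fun h => by
    rcases rt_mem h with h | h <;> cases h
  have h3 : Let3.c ∉ (lf K D).flatMap cl := by
    rw [List.mem_flatMap]
    rintro ⟨l, _, h⟩
    exact cl_not_mem l h
  have h4 : Let3.c ∉ (rt Y Z).flatMap fun l => (cr l).reverse := by
    rw [List.mem_flatMap]
    rintro ⟨l, _, h⟩
    exact cr_not_mem l (List.mem_reverse.1 h)
  rw [hw_eq, hw3_eq, mem_lang4' h1 h2, mem_lang3' h3 h4]
  have h5 : ((rt Y Z).flatMap fun l => (cr l).reverse).reverse = (rt Y Z).reverse.flatMap cr := by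
    rw [List.reverse_flatMap]
    congr 1
    funext l
    simp
  rw [h5]
  exact rd_code (fun l hl => lf_mem hl) (fun l hl => rt_mem (List.mem_reverse.1 hl))

theorem hw3_get {m : ℕ} : (hw3 K D Y Z)[m]? = if m < K * D * 18 + 1 + Y * 24 then
    some (if m < K * D * 18 then (if m / 18 % D = 0 then wB else wA).getD (m % 18) Let3.c
    else if m = K * D * 18 then Let3.c
    else (if Z (Y - 1 - (m - (K * D * 18 + 1)) / 24) then wO.reverse else wI.reverse).getD
      ((m - (K * D * 18 + 1)) % 24) Let3.c) else none := by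
  unfold hw3
  rw [List.getElem?_map]
  split_ifs with h
  all_goals first
    | (rw [List.getElem?_range h]; simp_all)
    | (rw [List.getElem?_eq_none (by simpa using h)]; rfl)

end word

section reduction

variable {α : Type} {X : Type} [Cod X]

theorem FP.getD (u : List Let3) (β : Let3) {f : List α → X → ℕ} (hf : Fn f) :
    FP fun w y => u.getD (f w y) Let3.c = β := by
  have h1 : FP fun w y => ∃ r : Fin u.length, f w y = r ∧ u.getD r Let3.c = β :=
    FP.exFin fun r => (FP.eq hf (Fn.const _)).and (FP.constP _)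
  have h2 : FP fun w y => u.length ≤ f w y ∧ Let3.c = β :=
    (FP.le (Fn.const _) hf).and (FP.constP _)
  refine (h1.or h2).congr fun w y => ?_
  constructor
  · intro h
    rcases Nat.lt_or_ge (f w y) u.length with h3 | h3
    · exact Or.inl ⟨⟨_, h3⟩, rfl, h⟩
    · rw [List.getD_eq_default _ _ h3] at h
      exact Or.inr ⟨h3, h⟩
  · rintro (⟨r, h3, h4⟩ | ⟨h3, h4⟩)
    · rw [h3]; exact h4
    · rw [List.getD_eq_default _ _ h3]; exact h4

theorem inL_lggr3 (h : InL G3.language) : InL LGGR := by
  refine inL_of_FP _ (fun w _ => ∃ n < w.length + 1, ∃ I < n, ∃ J < n, (w.length = n * n ∧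
      ∃ b c, w[I * n + J]? = some (b, c, true)) ∧
      hw3 (5 * (I + J)) (4 * n + 4) (5 * (I + J) * (4 * n + 4) + 4 * J)
        (fun i => CC (eE n w) (eS n w) (i / (4 * n + 4)) (i % (4 * n + 4))) ∈ G3.language)
    ?_ fun w => by rw [lggr_iff]; simp only [hw3_mem]
  refine FP.bex (b := fun w (_ : Unit) => w.length + 1) Fn.lenSucc (P := fun w (z : Unit × ℕ) =>
      ∃ I < z.2, ∃ J < z.2, (w.length = z.2 * z.2 ∧
      ∃ b c, w[I * z.2 + J]? = some (b, c, true)) ∧
      hw3 (5 * (I + J)) (4 * z.2 + 4) (5 * (I + J) * (4 * z.2 + 4) + 4 * J)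
        (fun i => CC (eE z.2 w) (eS z.2 w) (i / (4 * z.2 + 4)) (i % (4 * z.2 + 4))) ∈
        G3.language) ?_
  refine FP.bex (b := fun w (z : Unit × ℕ) => z.2) Fn.id.snd
      (P := fun w (z : (Unit × ℕ) × ℕ) =>
      ∃ J < z.1.2, (w.length = z.1.2 * z.1.2 ∧
      ∃ b c, w[z.2 * z.1.2 + J]? = some (b, c, true)) ∧
      hw3 (5 * (z.2 + J)) (4 * z.1.2 + 4) (5 * (z.2 + J) * (4 * z.1.2 + 4) + 4 * J)
        (fun i => CC (eE z.1.2 w) (eS z.1.2 w) (i / (4 * z.1.2 + 4)) (i % (4 * z.1.2 + 4))) ∈
        G3.language) ?_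
  refine FP.bex (b := fun w (z : (Unit × ℕ) × ℕ) => z.1.2) Fn.id.fst.snd
      (P := fun w (z : ((Unit × ℕ) × ℕ) × ℕ) => (w.length = z.1.1.2 * z.1.1.2 ∧
      ∃ b c, w[z.1.2 * z.1.1.2 + z.2]? = some (b, c, true)) ∧
      hw3 (5 * (z.1.2 + z.2)) (4 * z.1.1.2 + 4)
        (5 * (z.1.2 + z.2) * (4 * z.1.1.2 + 4) + 4 * z.2)
        (fun i => CC (eE z.1.1.2 w) (eS z.1.1.2 w) (i / (4 * z.1.1.2 + 4))
          (i % (4 * z.1.1.2 + 4))) ∈ G3.language) ?_
  let X := ((Unit × ℕ) × ℕ) × ℕ
  have hn : Fn fun (w : List (Bool × Bool × Bool)) (z : X) => z.1.1.2 := Fn.id.fst.fst.snd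
  have hI : Fn fun (w : List (Bool × Bool × Bool)) (z : X) => z.1.2 := Fn.id.fst.snd
  have hJ : Fn fun (w : List (Bool × Bool × Bool)) (z : X) => z.2 := Fn.id.snd
  have hK : Fn fun (w : List (Bool × Bool × Bool)) (z : X) => 5 * (z.1.2 + z.2) :=
    (Fn.const 5).mul (hI.add hJ)
  have hD : Fn fun (w : List (Bool × Bool × Bool)) (z : X) => 4 * z.1.1.2 + 4 :=
    ((Fn.const 4).mul hn).add (Fn.const 4)
  have hKD := hK.mul hD
  have hKD18 := hKD.mul (Fn.const 18)
  have hYY : Fn fun (w : List (Bool × Bool × Bool)) (z : X) =>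
      5 * (z.1.2 + z.2) * (4 * z.1.1.2 + 4) + 4 * z.2 := hKD.add ((Fn.const 4).mul hJ)
  refine ((FP.eq Fn.len (hn.mul hn)).and ?_).and ?_
  · refine (FP.exLetter ((hI.mul hn).add hJ) (fun x => x.2.2 = true)).congr fun w y => ?_
    constructor
    · rintro ⟨b, c, h2⟩
      exact ⟨_, h2, rfl⟩
    · rintro ⟨⟨x, b, c⟩, h2, h3⟩
      simp only at h3
      subst h3
      exact ⟨x, b, h2⟩
  · refine FP.inL_comp h (V := fun w (z : X) => hw3 (5 * (z.1.2 + z.2)) (4 * z.1.1.2 + 4)
        (5 * (z.1.2 + z.2) * (4 * z.1.1.2 + 4) + 4 * z.2)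
        (fun i => CC (eE z.1.1.2 w) (eS z.1.1.2 w) (i / (4 * z.1.1.2 + 4))
          (i % (4 * z.1.1.2 + 4)))) ?_ ?_
    · simp only [hw3_length]
      exact hKD18.succ.add (hYY.mul (Fn.const 24))
    · intro β
      -- parameters `(x, m)`
      have hm : Fn fun (w : List (Bool × Bool × Bool)) (z : X × ℕ) => z.2 := Fn.id.snd
      have g : ∀ {f : List (Bool × Bool × Bool) → X → ℕ}, Fn f →
          Fn fun (w : List (Bool × Bool × Bool)) (z : X × ℕ) => f w z.1 := fun hf =>
        hf.comp Fn.id.fst
      have hlen := (g hKD18).succ.add (g (hYY.mul (Fn.const 24)))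
      have h1 := FP.lt hm hlen
      have h2 := FP.lt hm (g hKD18)
      have h3 := FP.eq ((hm.div (Fn.const 18)).mod (g hD)) (Fn.const 0)
      have h4 := FP.eq hm (g hKD18)
      have hidx := hm.sub (g hKD18).succ
      have hq := ((g hYY).sub (Fn.const 1)).sub (hidx.div (Fn.const 24))
      have h5 := FP.CC (g hn) (hq.div (g hD)) (hq.mod (g hD))
      have gB := FP.getD wB β (hm.mod (Fn.const 18))
      have gA := FP.getD wA β (hm.mod (Fn.const 18))
      have gO := FP.getD wO.reverse β (hidx.mod (Fn.const 24))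
      have gI := FP.getD wI.reverse β (hidx.mod (Fn.const 24))
      have hc := FP.constP (α := Bool × Bool × Bool) (X := X × ℕ) (Let3.c = β)
      simp only [hw3_get]
      refine (h1.and ((h2.and ((h3.and gB).or (h3.not.and gA))).or
        ((h2.not.and (h4.and hc)).or
          (h2.not.and (h4.not.and ((h5.and gO).or (h5.not.and gI))))))).congr fun w z => ?_
      split_ifs with p1 p2 p3 p4 p5
      all_goals try simp only [Option.some.injEq, reduceCtorEq]
      all_goals clear h hn hI hJ hK hD hKD hKD18 hYY hm g hlen h1 h2 h3 h4 hidx hq h5 gB gA gO gI hc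
      all_goals tauto

end reduction

end Pool.Agent.Helper95.Lin3
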