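import Pool.Agent.Helper38.LinTwo.Hard

/-!
# A linear grammar with one nonterminal and three recursive rules

The grammar `S → a S a | b S b | a S a b b b a a a | c` generates the words `x c y^R` where `y`
arises from `x` by replacing some of the letters `a` by `a a a b b b a`.
-/

namespace Pool.Agent.Helper95.Lin3

open Pool.Agent.Helper38.LinL Pool.Agent.Helper38.LinTwo

/-- Three letters. -/
inductive Let3 : Type
  | a : Let3
  | b : Let3
  | c : Let3
  deriving DecidableEq, Fintype

/-- The grammar `S → a S a | b S b | a S a b b b a a a | c`. -/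
def G3 : LinearGrammar Let3 where
  N := Unit
  finN := inferInstance
  start := ()
  rules := {((), [Let3.a], (), [Let3.a]), ((), [Let3.b], (), [Let3.b]),
    ((), [Let3.a], (), [Let3.a, Let3.b, Let3.b, Let3.b, Let3.a, Let3.a, Let3.a])}
  term := {((), [Let3.c])}

/-- `y` arises from `x` by replacing some letters `a` by `aaabbba`. -/
inductive Rd : List Let3 → List Let3 → Prop
  | nil : Rd [] []
  | a1 {x y : List Let3} : Rd x y → Rd (Let3.a :: x) (Let3.a :: y)
  | b1 {x y : List Let3} : Rd x y → Rd (Let3.b :: x) (Let3.b :: y)
  | a2 {x y : List Let3} : Rd x y → Rd (Let3.a :: x)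
      (Let3.a :: Let3.a :: Let3.a :: Let3.b :: Let3.b :: Let3.b :: Let3.a :: y)

/-- The relation of the grammar `G4`. -/
inductive Rd4 : List Let → List Let → Prop
  | nil : Rd4 [] []
  | a0 {x y : List Let} : Rd4 x y → Rd4 (Let.a :: x) (Let.zero :: y)
  | a1 {x y : List Let} : Rd4 x y → Rd4 (Let.a :: x) (Let.one :: y)
  | b0 {x y : List Let} : Rd4 x y → Rd4 (Let.b :: x) (Let.zero :: y)
  | b00 {x y : List Let} : Rd4 x y → Rd4 (Let.b :: x) (Let.zero :: Let.zero :: y)

theorem Rd.append {x y x' y' : List Let3} (h : Rd x y) (h' : Rd x' y') :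
    Rd (x ++ x') (y ++ y') := by
  induction h with
  | nil => exact h'
  | a1 _ ih => exact Rd.a1 ih
  | b1 _ ih => exact Rd.b1 ih
  | a2 _ ih => exact Rd.a2 ih

theorem Rd4.append {x y x' y' : List Let} (h : Rd4 x y) (h' : Rd4 x' y') :
    Rd4 (x ++ x') (y ++ y') := by
  induction h with
  | nil => exact h'
  | a0 _ ih => exact Rd4.a0 ih
  | a1 _ ih => exact Rd4.a1 ih
  | b0 _ ih => exact Rd4.b0 ih
  | b00 _ ih => exact Rd4.b00 ih

theorem mem_rules3 {u v : List Let3} : (((), u, (), v) : Unit × List Let3 × Unit × List Let3) ∈
    G3.rules ↔ (u = [Let3.a] ∧ v = [Let3.a]) ∨ (u = [Let3.b] ∧ v = [Let3.b]) ∨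
      (u = [Let3.a] ∧ v = [Let3.a, Let3.b, Let3.b, Let3.b, Let3.a, Let3.a, Let3.a]) := by
  change (((), u, (), v) : Unit × List Let3 × Unit × List Let3) ∈
    ({((), [Let3.a], (), [Let3.a]), ((), [Let3.b], (), [Let3.b]),
      ((), [Let3.a], (), [Let3.a, Let3.b, Let3.b, Let3.b, Let3.a, Let3.a, Let3.a])} :
      Finset (Unit × List Let3 × Unit × List Let3)) ↔ _
  simp only [Finset.mem_insert, Finset.mem_singleton, Prod.mk.injEq, true_and]

theorem mem_term3 {B : G3.N} {t : List Let3} : (B, t) ∈ G3.term ↔ t = [Let3.c] := by
  change ((B, t) : Unit × List Let3) ∈ ({((), [Let3.c])} : Finset (Unit × List Let3)) ↔ _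
  simp only [Finset.mem_singleton, Prod.mk.injEq]
  exact ⟨fun h => h.2, fun h => ⟨rfl, h⟩⟩

theorem rd_of_derives {u v : List Let3} {B : G3.N} (h : G3.Derives () u B v) :
    Rd u v.reverse := by
  induction h with
  | refl => exact Rd.nil
  | @step u B v u' C v' _ hr ih =>
    rw [List.reverse_append]
    refine ih.append ?_
    have hr' := mem_rules3.1 hr
    rcases hr' with ⟨rfl, rfl⟩ | ⟨rfl, rfl⟩ | ⟨rfl, rfl⟩
    · exact Rd.a1 Rd.nil
    · exact Rd.b1 Rd.nil
    · exact Rd.a2 Rd.nil

theorem derives_of_rd {x y : List Let3} (h : Rd x y) : G3.Derives () x () y.reverse := by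
  induction h with
  | nil => exact LinearGrammar.Derives.refl
  | @a1 x y _ ih =>
    rw [List.reverse_cons]
    exact (LinearGrammar.Derives.single (G := G3) (A := ()) (B := ()) (u := [Let3.a])
      (v := [Let3.a]) (mem_rules3.2 (by simp))).trans ih
  | @b1 x y _ ih =>
    rw [List.reverse_cons]
    exact (LinearGrammar.Derives.single (G := G3) (A := ()) (B := ()) (u := [Let3.b])
      (v := [Let3.b]) (mem_rules3.2 (by simp))).trans ih
  | @a2 x y _ ih =>
    have h := (LinearGrammar.Derives.single (G := G3) (A := ()) (B := ()) (u := [Let3.a])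
      (v := [Let3.a, Let3.b, Let3.b, Let3.b, Let3.a, Let3.a, Let3.a])
      (mem_rules3.2 (by simp))).trans ih
    simpa using h

theorem mem_lang3 {w : List Let3} : w ∈ G3.language ↔ ∃ x y, Rd x y ∧
    w = x ++ [Let3.c] ++ y.reverse := by
  constructor
  · rintro ⟨u, B, v, t, h1, h2, rfl⟩
    have ht : t = [Let3.c] := mem_term3.1 h2
    subst ht
    exact ⟨u, v.reverse, rd_of_derives h1, by simp⟩
  · rintro ⟨x, y, h, rfl⟩
    exact ⟨x, (), y.reverse, [Let3.c], derives_of_rd h, mem_term3.2 rfl, rfl⟩

theorem rd4_of_derives {u v : List Let} {B : G4.N} (h : G4.Derives () u B v) :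
    Rd4 u v.reverse := by
  induction h with
  | refl => exact Rd4.nil
  | @step u B v u' C v' _ hr ih =>
    rw [List.reverse_append]
    refine ih.append ?_
    have hr' := mem_rules.1 hr
    rcases hr' with ⟨rfl, rfl⟩ | ⟨rfl, rfl⟩ | ⟨rfl, rfl⟩ | ⟨rfl, rfl⟩
    · exact Rd4.a0 Rd4.nil
    · exact Rd4.a1 Rd4.nil
    · exact Rd4.b0 Rd4.nil
    · exact Rd4.b00 Rd4.nil

theorem derives_of_rd4 {x y : List Let} (h : Rd4 x y) : G4.Derives () x () y.reverse := by
  induction h with
  | nil => exact LinearGrammar.Derives.refl
  | @a0 x y _ ih =>
    rw [List.reverse_cons]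
    exact (LinearGrammar.Derives.single (G := G4) (A := ()) (B := ()) (u := [Let.a])
      (v := [Let.zero]) (mem_rules.2 (by simp))).trans ih
  | @a1 x y _ ih =>
    rw [List.reverse_cons]
    exact (LinearGrammar.Derives.single (G := G4) (A := ()) (B := ()) (u := [Let.a])
      (v := [Let.one]) (mem_rules.2 (by simp))).trans ih
  | @b0 x y _ ih =>
    rw [List.reverse_cons]
    exact (LinearGrammar.Derives.single (G := G4) (A := ()) (B := ()) (u := [Let.b])
      (v := [Let.zero]) (mem_rules.2 (by simp))).trans ih
  | @b00 x y _ ih =>
    have h := (LinearGrammar.Derives.single (G := G4) (A := ()) (B := ()) (u := [Let.b])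
      (v := [Let.zero, Let.zero]) (mem_rules.2 (by simp))).trans ih
    simpa using h

theorem mem_lang4 {w : List Let} : w ∈ G4.language ↔ ∃ x y, Rd4 x y ∧
    w = x ++ [Let.c] ++ y.reverse := by
  constructor
  · rintro ⟨u, B, v, t, h1, h2, rfl⟩
    have ht : t = [Let.c] := mem_term.1 h2
    subst ht
    exact ⟨u, v.reverse, rd4_of_derives h1, by simp⟩
  · rintro ⟨x, y, h, rfl⟩
    exact ⟨x, (), y.reverse, [Let.c], derives_of_rd4 h, mem_term.2 rfl, rfl⟩

/-! ## The code -/

/-- If `y` starts with `aaabbba`, the rest. -/
def dropX : List Let3 → List (List Let3)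
  | Let3.a :: Let3.a :: Let3.a :: Let3.b :: Let3.b :: Let3.b :: Let3.a :: t => [t]
  | _ => []

/-- The possible rests of `y` after reading `x`. -/
def res : List Let3 → List Let3 → List (List Let3)
  | [], y => [y]
  | Let3.a :: x, y => (match y with
      | Let3.a :: t => res x t
      | _ => []) ++ (dropX y).flatMap (res x)
  | Let3.b :: x, y => (match y with
      | Let3.b :: t => res x t
      | _ => [])
  | Let3.c :: _, _ => []

theorem mem_dropX {y t : List Let3} : t ∈ dropX y ↔
    y = Let3.a :: Let3.a :: Let3.a :: Let3.b :: Let3.b :: Let3.b :: Let3.a :: t := by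
  unfold dropX
  split
  · simp only [List.mem_singleton, List.cons.injEq, true_and]
    exact eq_comm
  · rename_i h
    simp only [List.not_mem_nil, false_iff]
    rintro rfl
    exact h _ rfl

theorem rd_append_iff {x x' y : List Let3} : Rd (x ++ x') y ↔ ∃ z ∈ res x y, Rd x' z := by
  induction x generalizing y with
  | nil => simp [res]
  | cons l x ih =>
    cases l with
    | a =>
      constructor
      · intro h
        rcases h with _ | h | _ | h
        · obtain ⟨z, hz, h'⟩ := ih.1 h
          exact ⟨z, by simp [res, hz], h'⟩
        · obtain ⟨z, hz, h'⟩ := ih.1 h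
          exact ⟨z, by simp [res, dropX, hz], h'⟩
      · rintro ⟨z, hz, h'⟩
        simp only [res, List.mem_append, List.mem_flatMap] at hz
        rcases hz with hz | ⟨t, ht, hz⟩
        · cases y with
          | nil => simp at hz
          | cons m t =>
            cases m with
            | a => exact Rd.a1 (ih.2 ⟨z, hz, h'⟩)
            | b => simp at hz
            | c => simp at hz
        · rw [mem_dropX.1 ht]
          exact Rd.a2 (ih.2 ⟨z, hz, h'⟩)
    | b =>
      constructor
      · intro h
        rcases h with _ | _ | h | _
        obtain ⟨z, hz, h'⟩ := ih.1 h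
        exact ⟨z, by simp [res, hz], h'⟩
      · rintro ⟨z, hz, h'⟩
        simp only [res] at hz
        cases y with
        | nil => simp at hz
        | cons m t =>
          cases m with
          | a => simp at hz
          | b => exact Rd.b1 (ih.2 ⟨z, hz, h'⟩)
          | c => simp at hz
    | c =>
      constructor
      · intro h
        cases h
      · rintro ⟨z, hz, _⟩
        simp [res] at hz

/-- `X = aaabbb` -/
def wX : List Let3 := [.a, .a, .a, .b, .b, .b]

/-- `D = a X ab b` -/
def wD : List Let3 := [.a] ++ wX ++ [.a, .b] ++ [.b]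

/-- `a D b` -/
def wB2 : List Let3 := [.a] ++ wD ++ [.b]

/-- the code of `a` on the left, `a X D b` -/
def wA : List Let3 := [.a] ++ wX ++ wD ++ [.b]

/-- the code of `b` on the left, `X a D b` -/
def wB : List Let3 := wX ++ wB2

/-- the code of `0` on the right, `X a X D b` -/
def wO : List Let3 := wX ++ wA

/-- the code of `1` on the right, `a X X D b` -/
def wI : List Let3 := [.a] ++ wX ++ wX ++ wD ++ [.b]

theorem res_A_O (t : List Let3) : res wA (wO ++ t) = [t] := rfl
theorem res_A_I (t : List Let3) : res wA (wI ++ t) = [t, t] := rfl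
theorem res_A_nil : res wA [] = [] := rfl
theorem res_X_O (t : List Let3) : res wX (wO ++ t) = [wA ++ t, t] := rfl
theorem res_X_I (t : List Let3) : res wX (wI ++ t) = [] := rfl
theorem res_X_nil : res wX [] = [] := rfl
theorem res_B2_A (t : List Let3) : res wB2 (wA ++ t) = [t] := rfl
theorem res_B2_O (t : List Let3) : res wB2 (wO ++ t) = [t] := rfl
theorem res_B2_I (t : List Let3) : res wB2 (wI ++ t) = [] := rfl
theorem res_B2_nil : res wB2 [] = [] := rfl

/-- code on the left -/
def cl : Let → List Let3
  | Let.a => wA
  | Let.b => wB
  | _ => []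

/-- code on the right (in reading order) -/
def cr : Let → List Let3
  | Let.zero => wO
  | Let.one => wI
  | _ => []

theorem rd_code {x y : List Let} (hx : ∀ l ∈ x, l = Let.a ∨ l = Let.b)
    (hy : ∀ l ∈ y, l = Let.zero ∨ l = Let.one) :
    Rd (x.flatMap cl) (y.flatMap cr) ↔ Rd4 x y := by
  induction x generalizing y with
  | nil =>
    cases y with
    | nil => exact ⟨fun _ => Rd4.nil, fun _ => Rd.nil⟩
    | cons m y =>
      constructor
      · intro h
        exfalso
        rcases hy m (by simp) with rfl | rfl
        · have h' : Rd [] (wO ++ y.flatMap cr) := h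
          cases h'
        · have h' : Rd [] (wI ++ y.flatMap cr) := h
          cases h'
      · intro h
        cases h
  | cons l x ih =>
    have hx' : ∀ l ∈ x, l = Let.a ∨ l = Let.b := fun l hl => hx l (by simp [hl])
    rcases hx l (by simp) with rfl | rfl
    · -- the letter a
      have e : (Let.a :: x).flatMap cl = wA ++ x.flatMap cl := rfl
      rw [e, rd_append_iff]
      cases y with
      | nil =>
        constructor
        · rintro ⟨z, hz, _⟩
          have : z ∈ res wA [] := hz
          rw [res_A_nil] at this
          simp at this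
        · intro h
          cases h
      | cons m y =>
        have hy' : ∀ l ∈ y, l = Let.zero ∨ l = Let.one := fun l hl => hy l (by simp [hl])
        rcases hy m (by simp) with rfl | rfl
        · have e' : (Let.zero :: y).flatMap cr = wO ++ y.flatMap cr := rfl
          rw [e', res_A_O]
          simp only [List.mem_singleton, exists_eq_left]
          rw [ih hx' hy']
          constructor
          · exact Rd4.a0
          · intro h
            cases h with
            | a0 h => exact h
        · have e' : (Let.one :: y).flatMap cr = wI ++ y.flatMap cr := rfl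
          rw [e', res_A_I]
          simp only [List.mem_cons, List.not_mem_nil, or_false, or_self, exists_eq_left]
          rw [ih hx' hy']
          constructor
          · exact Rd4.a1
          · intro h
            cases h with
            | a1 h => exact h
    · -- the letter b
      have e : (Let.b :: x).flatMap cl = wX ++ (wB2 ++ x.flatMap cl) := rfl
      rw [e, rd_append_iff]
      cases y with
      | nil =>
        constructor
        · rintro ⟨z, hz, _⟩
          have : z ∈ res wX [] := hz
          rw [res_X_nil] at this
          simp at this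
        · intro h
          cases h
      | cons m y =>
        have hy' : ∀ l ∈ y, l = Let.zero ∨ l = Let.one := fun l hl => hy l (by simp [hl])
        rcases hy m (by simp) with rfl | rfl
        · have e' : (Let.zero :: y).flatMap cr = wO ++ y.flatMap cr := rfl
          rw [e', res_X_O]
          simp only [List.mem_cons, List.not_mem_nil, or_false, exists_eq_or_imp, exists_eq_left]
          rw [rd_append_iff, res_B2_A, rd_append_iff]
          simp only [List.mem_singleton, exists_eq_left]
          rw [ih hx' hy']
          constructor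
          · rintro (h | ⟨z, hz, h⟩)
            · exact Rd4.b0 h
            · cases y with
              | nil =>
                have : z ∈ res wB2 [] := hz
                rw [res_B2_nil] at this
                simp at this
              | cons m' y' =>
                rcases hy' m' (by simp) with rfl | rfl
                · have e'' : (Let.zero :: y').flatMap cr = wO ++ y'.flatMap cr := rfl
                  rw [e'', res_B2_O, List.mem_singleton] at hz
                  subst hz
                  exact Rd4.b00 ((ih hx' (fun l hl => hy' l (by simp [hl]))).1 h)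
                · have e'' : (Let.one :: y').flatMap cr = wI ++ y'.flatMap cr := rfl
                  rw [e'', res_B2_I] at hz
                  simp at hz
          · intro h
            cases h with
            | b0 h => exact Or.inl h
            | @b00 _ y' h =>
              refine Or.inr ⟨y'.flatMap cr, ?_, (ih hx' (fun l hl => hy' l (by simp [hl]))).2 h⟩
              have e'' : (Let.zero :: y').flatMap cr = wO ++ y'.flatMap cr := rfl
              rw [e'', res_B2_O]
              simp
        · have e' : (Let.one :: y).flatMap cr = wI ++ y.flatMap cr := rfl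
          rw [e', res_X_I]
          constructor
          · rintro ⟨z, hz, _⟩
            simp at hz
          · intro h
            cases h

end Pool.Agent.Helper95.Lin3
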